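import Pool.Agent.helper54.TS.Spec

set_option autoImplicit false

open Polynomial Finset

noncomputable section

namespace Pool.Agent.TS

open Pool.Agent.PSA (IsSalem Indep Fac)

/-- ORP: periodicity of orbits. -/
theorem ORP : ORP_stmt := by
  intro p b κ θ hb hκ hθ
  have h1 : ∀ (i : ℕ) (x : ℝ) (n r : ℕ),
      orb b κ θ i x (n + r) = orb b κ θ (i + n) (orb b κ θ i x n) r := by
    intro i x n r
    induction r with
    | zero => rfl
    | succ r ih =>
      have e1 : n + (r + 1) = (n + r) + 1 := rfl
      rw [e1, orb, orb, ih]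
      have e2 : i + (n + r) = i + n + r := (Nat.add_assoc i n r).symm
      rw [e2]
  have h2 : ∀ (i : ℕ) (x : ℝ) (n : ℕ), orb b κ θ (i + p) x n = orb b κ θ i x n := by
    intro i x n
    induction n with
    | zero => rfl
    | succ n ih =>
      rw [orb, orb, ih]
      have e1 : i + p + n + 1 = (i + n + 1) + p := by omega
      have e2 : i + p + n = (i + n) + p := by omega
      rw [e1, e2, hb, hκ, hθ]
  refine ⟨h1, h2, ?_⟩
  intro i x m r
  induction m generalizing x with
  | zero =>
    rw [Nat.zero_mul, Nat.zero_add]
    rfl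
  | succ m ih =>
    have e1 : (m + 1) * p + r = p + (m * p + r) := by ring
    rw [e1, h1, h2, ih, Function.iterate_succ_apply]

end Pool.Agent.TS
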