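import Pool.Agent.helper54.TS.Spec

set_option autoImplicit false

open Polynomial Finset

noncomputable section

namespace Pool.Agent.TS

open Pool.Agent.PSA (IsSalem Indep Fac)

lemma PGB_mul {A : Type} (f : ℕ → A) (p : ℕ) (h : ∀ n, f (n + p) = f n) (m n : ℕ) :
    f (n + m * p) = f n := by
  induction m with
  | zero => rw [Nat.zero_mul, Nat.add_zero]
  | succ m ih =>
    have e : n + (m + 1) * p = (n + m * p) + p := by ring
    rw [e, h, ih]

/-- PGB: eventually periodic expansions. -/
theorem PGB (hRC : PX.RC_stmt) (hRNB : RNB_stmt) : PGB_stmt := by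
  intro p b κ θ hp hb hκ hθ hb1 hcase hhalf idx α hidx0 hidx hα hαp j s i x r his hgr hrs hx0 hfin
  have hlen : ∀ m, 1 ≤ (sbl (κ m) (θ m) (b m)).length := by
    intro m
    unfold sbl
    split_ifs
    · simp
    · simp
  have hmono : StrictMono idx := by
    refine strictMono_nat_of_lt_succ fun m => ?_
    rw [hidx m]
    have := hlen m
    omega
  have hidxp : ∀ m, idx (m + p) = idx m + idx p := by
    intro m
    induction m with
    | zero => rw [Nat.zero_add, hidx0, Nat.zero_add]
    | succ m ih =>
      have e : m + 1 + p = (m + p) + 1 := by omega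
      rw [e, hidx, hidx, ih, hκ, hθ, hb]
      omega
  have hidxmp : ∀ q m, idx (m + q * p) = idx m + q * idx p := by
    intro q m
    induction q with
    | zero => rw [Nat.zero_mul, Nat.add_zero, Nat.zero_mul, Nat.add_zero]
    | succ q ih =>
      have e : m + (q + 1) * p = (m + q * p) + p := by ring
      rw [e, hidxp, ih]
      ring
  -- the remainders at the block ends
  have hA : ∀ l, r (s + (idx (j + 1 + l) - idx (j + 1))) =
      Int.fract (b (j + l) * orb b κ θ j x l) := by
    intro l
    induction l with
    | zero =>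
      rw [Nat.add_zero, Nat.sub_self, Nat.add_zero, Nat.add_zero]
      exact hrs
    | succ l ih =>
      set n := s + (idx (j + 1 + l) - idx (j + 1)) with hn
      have hle : idx (j + 1) ≤ idx (j + 1 + l) := hmono.monotone (by omega)
      have hni : n + i = idx (j + 1 + l) := by omega
      have hstep : r (n + (sbl (κ (j + 1 + l)) (θ (j + 1 + l)) (b (j + 1 + l))).length) =
          PX.run (sbl (κ (j + 1 + l)) (θ (j + 1 + l)) (b (j + 1 + l))) (r n) := by
        refine hRC α i r hgr.2 _ n ?_
        intro k hk
        have e : n + k + i = idx (j + 1 + l) + k := by omega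
        rw [e, hα (j + 1 + l) k hk]
      have e1 : s + (idx (j + 1 + (l + 1)) - idx (j + 1)) =
          n + (sbl (κ (j + 1 + l)) (θ (j + 1 + l)) (b (j + 1 + l))).length := by
        have e2 : j + 1 + (l + 1) = (j + 1 + l) + 1 := by omega
        rw [e2, hidx (j + 1 + l)]
        omega
      have e3 : j + 1 + l = j + l + 1 := by omega
      rw [e1, hstep, (hRNB _ _ _ (hcase _) (hhalf _) (hb1 _)).1 (r n) (by rw [ih]; exact Int.fract_nonneg _)
        (by rw [ih]; exact Int.fract_lt_one _), ih]
      have e4 : j + (l + 1) = j + l + 1 := rfl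
      rw [e3, e4, orb]
  -- pigeonhole
  obtain ⟨m, m', hmm, horb⟩ : ∃ m m' : ℕ, m < m' ∧ orb b κ θ j x (m * p) = orb b κ θ j x (m' * p) := by
    by_contra hcon
    push Not at hcon
    have hinj : Function.Injective (fun m => orb b κ θ j x (m * p)) := by
      intro m m' h
      rcases Nat.lt_trichotomy m m' with h1 | h1 | h1
      · exact absurd h (hcon m m' h1)
      · exact h1
      · exact absurd h.symm (hcon m' m h1)
    have hinf := Set.infinite_range_of_injective hinj
    refine hinf (hfin.subset ?_)
    rintro _ ⟨m, rfl⟩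
    exact ⟨m * p, rfl⟩
  have hidxppos : 0 < idx p := by
    have := hmono hp
    omega
  set N := s + (idx (j + 1 + m * p) - idx (j + 1)) with hN
  have hNi : N + i = idx (j + 1 + m * p) := by
    have hle : idx (j + 1) ≤ idx (j + 1 + m * p) := hmono.monotone (by omega)
    omega
  have hT : 0 < (m' - m) * idx p := Nat.mul_pos (by omega) hidxppos
  have hNT : N + (m' - m) * idx p = s + (idx (j + 1 + m' * p) - idx (j + 1)) := by
    have e1 : idx (j + 1 + m' * p) = idx (j + 1) + m' * idx p := hidxmp _ _
    have e2 : idx (j + 1 + m * p) = idx (j + 1) + m * idx p := hidxmp _ _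
    rw [hN, e1, e2]
    have e3 : (m' - m) * idx p = m' * idx p - m * idx p := Nat.sub_mul _ _ _
    have e4 : m * idx p ≤ m' * idx p := Nat.mul_le_mul_right _ hmm.le
    omega
  have hr0 : r (N + (m' - m) * idx p) = r N := by
    rw [hNT, hA, hN, hA, horb, PGB_mul b p hb m' j, PGB_mul b p hb m j]
  have hper : ∀ n, N ≤ n → r (n + (m' - m) * idx p) = r n := by
    intro n hn
    induction n, hn using Nat.le_induction with
    | base => exact hr0
    | succ n hn ih =>
      have e1 : n + 1 + (m' - m) * idx p = (n + (m' - m) * idx p) + 1 := by omega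
      have e2 : n + (m' - m) * idx p + i = (n + i) + (m' - m) * idx p := by omega
      rw [e1, hgr.2, hgr.2, ih, e2, PGB_mul α (idx p) hαp]
  refine ⟨N, (m' - m) * idx p, hT, ?_⟩
  intro n hn
  have e2 : n + (m' - m) * idx p + i = (n + i) + (m' - m) * idx p := by omega
  rw [hper n hn, e2, PGB_mul α (idx p) hαp]

end Pool.Agent.TS
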